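import Pool.Agent.Helper66.SC.Defs

universe u

namespace Pool.Agent.Helper25.SC

open ZFSet Pool.Agent.Helper66.SC

theorem mem_DefSub {A : Set ZFSet.{u}} {x y : ZFSet.{u}} : y ∈ DefSub A x ↔ y ⊆ x ∧
    ∃ (k : ℕ) (φ : Fml (k + 1)) (p : Fin k → ZFSet.{u}),
      (∀ i, p i ∈ x) ∧ ∀ a ∈ x, a ∈ y ↔ Sat {z | z ∈ x} A φ (Fin.cons a p) := by
  unfold DefSub
  rw [ZFSet.mem_sep, ZFSet.mem_powerset]

theorem mem_Lv {A : Set ZFSet.{u}} {o : Ordinal.{u}} {x : ZFSet.{u}} :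
    x ∈ Lv A o ↔ ∃ a < o, x ∈ DefSub A (Lv A a) := by
  rw [Lv, ZFSet.mem_iUnion]
  constructor
  · rintro ⟨⟨a, ha⟩, h⟩
    exact ⟨a, ha, h⟩
  · rintro ⟨a, ha, h⟩
    exact ⟨⟨a, ha⟩, h⟩

theorem Lv_mono (A : Set ZFSet.{u}) {o o' : Ordinal.{u}} (h : o ≤ o') : Lv A o ⊆ Lv A o' := by
  intro x hx
  rw [mem_Lv] at hx ⊢
  obtain ⟨a, ha, h1⟩ := hx
  exact ⟨a, ha.trans_le h, h1⟩

theorem Lv_trans (A : Set ZFSet.{u}) (o : Ordinal.{u}) : ∀ x ∈ Lv A o, ∀ y ∈ x, y ∈ Lv A o := by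
  intro x hx y hy
  obtain ⟨a, ha, h1⟩ := mem_Lv.1 hx
  exact Lv_mono A ha.le ((mem_DefSub.1 h1).1 hy)

theorem self_mem_DefSub (A : Set ZFSet.{u}) (x : ZFSet.{u}) : x ∈ DefSub A x := by
  refine mem_DefSub.2 ⟨fun _ h => h, 0, .eq 0 0, Fin.elim0, fun i => i.elim0, ?_⟩
  intro a ha
  exact ⟨fun _ => rfl, fun _ => ha⟩

theorem Lv_mem (A : Set ZFSet.{u}) {o o' : Ordinal.{u}} (h : o < o') : Lv A o ∈ Lv A o' :=
  mem_Lv.2 ⟨o, h, self_mem_DefSub A _⟩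

theorem Lv_succ (A : Set ZFSet.{u}) (o : Ordinal.{u}) : Lv A (o + 1) = DefSub A (Lv A o) := by
  apply ZFSet.ext
  intro x
  rw [mem_Lv]
  constructor
  · rintro ⟨a, ha, h⟩
    rcases (Order.lt_add_one_iff.1 ha).lt_or_eq with h1 | rfl
    · have hx : x ∈ Lv A o := mem_Lv.2 ⟨a, h1, h⟩
      refine mem_DefSub.2 ⟨fun y hy => Lv_trans A o x hx y hy, 1, .mem 0 1, fun _ => x, fun _ => hx, ?_⟩
      intro a _
      exact Iff.rfl
    · exact h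
  · intro h
    exact ⟨o, Order.lt_add_one_iff.2 le_rfl, h⟩

/-- transitive structures -/
def CT : Cls.{u} := fun M _ => ∀ x ∈ M, ∀ y ∈ x, y ∈ M

theorem isT_CT : IsT CT.{u} := fun _ _ h => h

theorem ud_ord : UD CT.{u} (k := 1) (fun _ _ v => (v 0).IsOrdinal) := by
  have h1 : UD CT.{u} (k := 1) (fun _ _ v => ∀ x ∈ v 0, ∀ y ∈ x, y ∈ v 0) := by
    refine UD.ball isT_CT (UF.var 0) (R := fun _ _ x v => ∀ y ∈ x, y ∈ v 0) ?_
    refine UD.ball isT_CT (UF.var 0) (R := fun _ _ y w => y ∈ (Fin.tail w) 0) ?_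
    exact UD.memv 0 2
  have h2 : UD CT.{u} (k := 1) (fun _ _ v => ∀ w ∈ v 0, ∀ z ∈ w, ∀ y ∈ z, y ∈ w) := by
    refine UD.ball isT_CT (UF.var 0) (R := fun _ _ w v => ∀ z ∈ w, ∀ y ∈ z, y ∈ w) ?_
    refine UD.ball isT_CT (UF.var 0) (R := fun _ _ z w => ∀ y ∈ z, y ∈ w 0) ?_
    refine UD.ball isT_CT (UF.var 0) (R := fun _ _ y w => y ∈ (Fin.tail w) 0) ?_
    exact UD.memv 0 2
  refine (h1.and h2).congr ?_
  intro M A _ v _
  constructor
  · rintro ⟨a, b⟩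
    exact ⟨fun x hx y hy => a x hx y hy, fun {y z w} hyz hzw hw => b w hw z hzw y hyz⟩
  · intro h
    exact ⟨fun x hx y hy => h.isTransitive.mem_trans hy hx, fun w hw z hz y hy => h.mem_trans' hy hz hw⟩

theorem oz_mem_Lv (A : Set ZFSet.{u}) (o : Ordinal.{u}) : ∀ a, oz a ∈ Lv A o ↔ a < o := by
  induction o using WellFoundedLT.induction with
  | ind o ih =>
    intro a
    constructor
    · intro h
      obtain ⟨b, hb, h1⟩ := mem_Lv.1 h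
      refine lt_of_le_of_lt ?_ hb
      by_contra hab
      push Not at hab
      have h2 : oz b ∈ oz a := Ordinal.toZFSet_mem_toZFSet_iff.2 hab
      exact absurd ((ih b hb b).1 ((mem_DefSub.1 h1).1 h2)) (lt_irrefl b)
    · intro h
      refine mem_Lv.2 ⟨a, h, ?_⟩
      obtain ⟨φ, hφ⟩ := ud_ord.{u}
      have key : ∀ x, x ∈ oz a ↔ x ∈ Lv A a ∧ x.IsOrdinal := by
        intro x
        constructor
        · intro hx
          obtain ⟨c, hc, rfl⟩ := Ordinal.mem_toZFSet_iff.1 hx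
          exact ⟨(ih a h c).2 hc, ZFSet.isOrdinal_toZFSet c⟩
        · rintro ⟨hx, ho⟩
          obtain ⟨c, rfl⟩ := ZFSet.isOrdinal_iff_mem_range_toZFSet.1 ho
          exact Ordinal.toZFSet_mem_toZFSet_iff.2 ((ih a h c).1 hx)
      refine mem_DefSub.2 ⟨fun x hx => ((key x).1 hx).1, 0, φ, Fin.elim0, fun i => i.elim0, ?_⟩
      intro x hx
      rw [key x]
      have := hφ {z | z ∈ Lv A a} A (fun y hy z hz => Lv_trans A a y hy z hz) (Fin.cons x Fin.elim0) (by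
        intro i
        refine Fin.cases ?_ (fun j => j.elim0) i
        exact hx)
      rw [this]
      exact ⟨fun h => h.2, fun h => ⟨hx, h⟩⟩

/-- D0: basic facts on the hierarchy. -/
theorem st_D0 : ST_D0.{u} := by
  intro A
  refine ⟨Lv_trans A, fun o o' h => Lv_mono A h, fun o o' h => Lv_mem A h, oz_mem_Lv A, Lv_succ A, ?_⟩
  intro o ho x
  constructor
  · intro hx
    obtain ⟨a, ha, h1⟩ := mem_Lv.1 hx
    exact ⟨a + 1, ho.add_one_lt ha, by rw [Lv_succ]; exact h1⟩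
  · rintro ⟨a, ha, hx⟩
    exact Lv_mono A ha.le hx

end Pool.Agent.Helper25.SC
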