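import Pool.Agent.Helper66.SC.Defs

universe u

namespace Pool.Agent.Helper25.SC

open ZFSet Pool.Agent.Helper66.SC

open Classical in
/-- one step of the construction of a generic filter -/
noncomputable def gstep (P D : ZFSet.{u}) (p : {q // q ∈ P}) : {q // q ∈ P} :=
  if h : ∃ q ∈ D, q ∈ P ∧ p.1 ⊆ q then ⟨h.choose, h.choose_spec.2.1⟩ else p

theorem gstep_sub (P D : ZFSet.{u}) (p : {q // q ∈ P}) : p.1 ⊆ (gstep P D p).1 := by
  unfold gstep
  split_ifs with h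
  · exact h.choose_spec.2.2
  · exact fun _ h => h

theorem gstep_mem (P D : ZFSet.{u}) (p : {q // q ∈ P}) (h : ∃ q ∈ D, q ∈ P ∧ p.1 ⊆ q) :
    (gstep P D p).1 ∈ D := by
  unfold gstep
  rw [dif_pos h]
  exact h.choose_spec.1

/-- the generic sequence -/
noncomputable def gseq (P : ZFSet.{u}) (f : ℕ → ZFSet.{u}) (p : {q // q ∈ P}) : ℕ → {q // q ∈ P}
  | 0 => p
  | n + 1 => gstep P (f n) (gseq P f p n)

theorem gseq_mono (P : ZFSet.{u}) (f : ℕ → ZFSet.{u}) (p : {q // q ∈ P}) (n k : ℕ) :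
    (gseq P f p n).1 ⊆ (gseq P f p (n + k)).1 := by
  induction k with
  | zero => exact fun _ h => h
  | succ k ih => exact fun x hx => gstep_sub P (f (n + k)) (gseq P f p (n + k)) (ih hx)

/-- FB0: generic filters exist over countable `M`. -/
theorem st_FB0 : ST_FB0.{u} := by
  intro M P hM hP h0 _ p hp
  obtain ⟨f, hf⟩ := hM.exists_eq_range ⟨P, hP⟩
  set g := gseq P f ⟨p, hp⟩ with hg
  have mono : ∀ n k, (g n).1 ⊆ (g (n + k)).1 := gseq_mono P f ⟨p, hp⟩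
  have mem : ∀ q, q ∈ P.sep (fun q => ∃ n, q ⊆ (g n).1) ↔ q ∈ P ∧ ∃ n, q ⊆ (g n).1 := fun q => ZFSet.mem_sep
  have memg : ∀ n, (g n).1 ∈ P.sep (fun q => ∃ n, q ⊆ (g n).1) :=
    fun n => (mem _).2 ⟨(g n).2, n, fun _ h => h⟩
  refine ⟨P.sep (fun q => ∃ n, q ⊆ (g n).1), ?_, ?_⟩
  · constructor
    · intro q hq
      exact ((mem q).1 hq).1
    · refine (mem _).2 ⟨h0, 0, ?_⟩
      intro x hx
      exact absurd hx (ZFSet.notMem_empty x)
    · intro q hq r hr hrq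
      obtain ⟨_, n, hn⟩ := (mem q).1 hq
      exact (mem r).2 ⟨hr, n, fun x hx => hn (hrq hx)⟩
    · intro q hq r hr
      obtain ⟨_, n, hn⟩ := (mem q).1 hq
      obtain ⟨_, m, hm⟩ := (mem r).1 hr
      refine ⟨(g (n + m)).1, memg _, fun x hx => mono n m (hn hx), fun x hx => ?_⟩
      rw [add_comm]
      exact mono m n (hm hx)
    · intro D hD hDP hd
      rw [hf] at hD
      obtain ⟨n, rfl⟩ := hD
      refine ⟨(g (n + 1)).1, memg _, ?_⟩
      apply gstep_mem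
      obtain ⟨q, hq, hpq⟩ := hd (g n).1 (g n).2
      exact ⟨q, hq, hDP hq, hpq⟩
  · exact memg 0

end Pool.Agent.Helper25.SC
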