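import Pool.Agent.Helper66.SC.Defs

universe u

namespace Pool.Agent.Helper25.SC

open ZFSet Pool.Agent.Helper66.SC

/-- FB2a: easy properties of the forcing relation. -/
theorem st_FB2a : ST_FB2a.{u} := by
  intro M P k φ
  induction φ with
  | mem i j =>
    intro v
    constructor
    · intro p _ q _ hpq h r hr hqr
      exact h r hr (fun x hx => hqr (hpq hx))
    · intro p _ h q hq hpq
      obtain ⟨r, hr, hqr, hF⟩ := h q hq hpq
      obtain ⟨r', hr', hrr', w, t, h1, h2, h3, h4⟩ := hF r hr (fun x hx => hx)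
      exact ⟨r', hr', fun x hx => hrr' (hqr hx), w, t, h1, h2, h3, h4⟩
  | eq i j =>
    intro v
    constructor
    · intro p _ q _ hpq h
      change FEq P (v i) (v j) p at h
      change FEq P (v i) (v j) q
      rw [FEq] at h ⊢
      refine ⟨fun z s h1 h2 q' hq' hqq' hs => h.1 z s h1 h2 q' hq' (fun x hx => hqq' (hpq hx)) hs,
        fun w t h1 h2 q' hq' hqq' ht => h.2 w t h1 h2 q' hq' (fun x hx => hqq' (hpq hx)) ht⟩
    · intro p _ h
      change FEq P (v i) (v j) p
      rw [FEq]
      constructor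
      · intro z s h1 h2 q hq hpq hsq
        obtain ⟨r, hr, hqr, hF⟩ := h q hq hpq
        change FEq P (v i) (v j) r at hF
        rw [FEq] at hF
        obtain ⟨r', hr', hrr', hh⟩ := hF.1 z s h1 h2 r hr (fun x hx => hx) (fun x hx => hqr (hsq hx))
        exact ⟨r', hr', fun x hx => hrr' (hqr hx), hh⟩
      · intro w t h1 h2 q hq hpq htq
        obtain ⟨r, hr, hqr, hF⟩ := h q hq hpq
        change FEq P (v i) (v j) r at hF
        rw [FEq] at hF
        obtain ⟨r', hr', hrr', hh⟩ := hF.2 w t h1 h2 r hr (fun x hx => hx) (fun x hx => hqr (htq hx))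
        exact ⟨r', hr', fun x hx => hrr' (hqr hx), hh⟩
  | pr i =>
    intro v
    constructor
    · intro p _ q _ _ h
      exact h
    · intro p hp h
      obtain ⟨r, _, _, hF⟩ := h p hp (fun x hx => hx)
      exact hF
  | neg φ ih =>
    intro v
    constructor
    · intro p _ q _ hpq h r hr hqr
      exact h r hr (fun x hx => hqr (hpq hx))
    · intro p _ h q hq hpq hF
      obtain ⟨r, hr, hqr, hN⟩ := h q hq hpq
      exact hN r hr (fun x hx => hx) ((ih v).1 q hq r hr hqr hF)
  | and φ ψ ih1 ih2 =>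
    intro v
    constructor
    · intro p hp q hq hpq h
      exact ⟨(ih1 v).1 p hp q hq hpq h.1, (ih2 v).1 p hp q hq hpq h.2⟩
    · intro p hp h
      refine ⟨(ih1 v).2 p hp ?_, (ih2 v).2 p hp ?_⟩
      · intro q hq hpq
        obtain ⟨r, hr, hqr, hF⟩ := h q hq hpq
        exact ⟨r, hr, hqr, hF.1⟩
      · intro q hq hpq
        obtain ⟨r, hr, hqr, hF⟩ := h q hq hpq
        exact ⟨r, hr, hqr, hF.2⟩
  | ex φ ih =>
    intro v
    constructor
    · intro p _ q _ hpq h r hr hqr
      exact h r hr (fun x hx => hqr (hpq hx))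
    · intro p _ h q hq hpq
      obtain ⟨r, hr, hqr, hF⟩ := h q hq hpq
      obtain ⟨r', hr', hrr', hh⟩ := hF r hr (fun x hx => hx)
      exact ⟨r', hr', fun x hx => hrr' (hqr hx), hh⟩

end Pool.Agent.Helper25.SC
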