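import Pool.Agent.Helper22.SC.Conv
import Pool.Agent.Helper22.SC.Ops3

/-! # FB4: the generic extension is a model of ZF -/

namespace Pool.Agent.Helper25.SC

universe u

open ZFSet
open Pool.Agent.Helper66.SC Pool.Agent.Helper22.SC

/-- Forcing with the poset `P`, as a uniformly definable relation. -/
theorem urel_forces (h3 : ST_FB3.{u}) {α : Type (u + 1)} [Ctx.{u} α] {k : ℕ} (φ : Fml k)
    {p P : Set ZFSet.{u} → Set ZFSet.{u} → α → ZFSet.{u}}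
    {v : Set ZFSet.{u} → Set ZFSet.{u} → α → (Fin k → ZFSet.{u})}
    (hp : U CZ p) (hP : U CZ P) (hv : U CZ v) :
    URel CZ (fun N A a => Forces N (P N A a) φ (v N A a) (p N A a)) := by
  have h := ud_iff.1 (h3 k φ)
  exact h.comp (f := fun N A a => (Fin.cons (p N A a) (Fin.cons (P N A a) (v N A a)) :
    Fin (k + 2) → ZFSet.{u})) (U.finCons hp (U.finCons hP hv))

/-- the relevant set of names -/
noncomputable def cut (M : Set ZFSet.{u}) (P : ZFSet.{u}) {k : ℕ} (φ : Fml (k + 1))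
    (v : Fin k → ZFSet.{u}) (d : ZFSet.{u}) : ZFSet.{u} :=
  ZFSet.sep (fun z => Forces M P φ (Fin.cons (pfst z) v) (psnd z)) (d.prod P)

theorem cut_mem (h3 : ST_FB3.{u}) {M A : Set ZFSet.{u}} (hM : IsZF M A) {P : ZFSet.{u}}
    (hP : P ∈ M) {k : ℕ} (φ : Fml (k + 1)) {v : Fin k → ZFSet.{u}} (hv : ∀ i, v i ∈ M)
    {d : ZFSet.{u}} (hd : d ∈ M) : cut M P φ v d ∈ M := by
  have h : U CZ (fun N _ (a : ((Fin k → ZFSet.{u}) × ZFSet.{u}) × ZFSet.{u}) =>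
      cut N a.1.2 φ a.1.1 a.2) := by
    unfold cut
    refine U.sep (U.prod U.id.snd U.id.fst.snd) ?_
    exact urel_forces h3 φ (U.psnd U.id.snd) U.id.fst.fst.snd
      (U.finCons (U.pfst U.id.snd) U.id.fst.fst.fst)
  exact in_zfset.1 (h.closed (N := M) (A := A) hM (a := ((v, P), d)) (by simp [hv, hP, hd]))

theorem pair_mem_cut {M : Set ZFSet.{u}} {P : ZFSet.{u}} {k : ℕ} {φ : Fml (k + 1)}
    {v : Fin k → ZFSet.{u}} {d s q : ZFSet.{u}} :
    pair s q ∈ cut M P φ v d ↔ s ∈ d ∧ q ∈ P ∧ Forces M P φ (Fin.cons s v) q := by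
  unfold cut
  rw [mem_sep, pair_mem_prod, pfst_pair, psnd_pair, and_assoc]

theorem val_cons {k : ℕ} (G s : ZFSet.{u}) (v : Fin k → ZFSet.{u}) :
    (fun i => val G ((Fin.cons s v : Fin (k + 1) → ZFSet.{u}) i)) =
      (Fin.cons (val G s) (fun i => val G (v i)) : Fin (k + 1) → ZFSet.{u}) := by
  funext i
  refine Fin.cases ?_ (fun j => ?_) i
  · rfl
  · rfl

section

variable {M : Set ZFSet.{u}} {P G : ZFSet.{u}}

/-- The value of a cut name. -/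
theorem mem_val_cut (h2 : ST_FB2.{u}) (hM : IsZF M ∅) (hP : P ∈ M) (hG : IsGeneric M P G)
    {k : ℕ} (φ : Fml (k + 1)) {v : Fin k → ZFSet.{u}} (hv : ∀ i, v i ∈ M) {d : ZFSet.{u}}
    (hd : d ∈ M) (x : ZFSet.{u}) :
    x ∈ val G (cut M P φ v d) ↔ ∃ s ∈ d, x = val G s ∧
      Sat (Ext M G) ∅ φ (Fin.cons x (fun i => val G (v i))) := by
  rw [mem_val]
  constructor
  · rintro ⟨s, q, hq, h, rfl⟩
    rw [pair_mem_cut] at h
    obtain ⟨h4, h5, h6⟩ := h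
    refine ⟨s, h4, rfl, ?_⟩
    have := (h2 M ∅ P G hM hP hG (k + 1) φ (Fin.cons s v)
      (cons_mem (hM.trans _ hd _ h4) hv)).2 ⟨q, hq, h6⟩
    rwa [val_cons] at this
  · rintro ⟨s, hs, rfl, h⟩
    have := (h2 M ∅ P G hM hP hG (k + 1) φ (Fin.cons s v)
      (cons_mem (hM.trans _ hd _ hs) hv)).1 (by rw [val_cons]; exact h)
    obtain ⟨q, hq, h6⟩ := this
    exact ⟨s, q, hq, pair_mem_cut.2 ⟨hs, hG.sub hq, h6⟩, rfl⟩

/-- The domain of a name in `M`. -/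
theorem dom_mem {A : Set ZFSet.{u}} (hM : IsZF M A) {τ : ZFSet.{u}} (hτ : τ ∈ M) :
    Helper22.SC.dom τ ∈ M := by
  have h : U CZ (fun _ _ (a : ZFSet.{u}) => Helper22.SC.dom a) := U.dom U.id
  exact in_zfset.1 (h.closed (N := M) (A := A) hM (a := τ) (by simpa using hτ))

theorem prod_mem {A : Set ZFSet.{u}} (hM : IsZF M A) {x y : ZFSet.{u}} (hx : x ∈ M)
    (hy : y ∈ M) : ZFSet.prod x y ∈ M := by
  have h : U CZ (fun _ _ (a : ZFSet.{u} × ZFSet.{u}) => ZFSet.prod a.1 a.2) :=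
    U.prod U.id.fst U.id.snd
  exact in_zfset.1 (h.closed (N := M) (A := A) hM (a := (x, y)) (by simp [hx, hy]))

theorem single_mem {A : Set ZFSet.{u}} (hM : IsZF M A) : ({∅} : ZFSet.{u}) ∈ M := by
  have h := hM.insert_mem hM.empty_mem hM.empty_mem
  have e : (insert (∅ : ZFSet.{u}) (∅ : ZFSet.{u}) : ZFSet.{u}) = {∅} := by
    ext z; simp
  rwa [e] at h

theorem pow_mem {A : Set ZFSet.{u}} (hM : IsZF M A) {x : ZFSet.{u}} (hx : x ∈ M) :
    Helper66.SC.Pow M x ∈ M := by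
  obtain ⟨y, hy, h⟩ := hM.power x hx
  have : Helper66.SC.Pow M x = y := by
    ext z
    rw [mem_Pow, h]
  rw [this]
  exact hy

/-- The name `B × {∅}` for the set of all values of elements of `B`. -/
theorem mem_val_full (hG : IsGeneric M P G) (B x : ZFSet.{u}) :
    x ∈ val G (B.prod {∅}) ↔ ∃ s ∈ B, x = val G s := by
  rw [mem_val]
  constructor
  · rintro ⟨s, q, _, h, rfl⟩
    exact ⟨s, (pair_mem_prod.1 h).1, rfl⟩
  · rintro ⟨s, hs, rfl⟩
    exact ⟨s, ∅, hG.top, pair_mem_prod.2 ⟨hs, ZFSet.mem_singleton.2 rfl⟩, rfl⟩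

theorem mem_val_dom {τ x : ZFSet.{u}} (h : x ∈ val G τ) :
    ∃ s ∈ Helper22.SC.dom τ, x = val G s := by
  obtain ⟨s, q, _, h1, h2⟩ := mem_val.1 h
  exact ⟨s, Helper22.SC.mem_dom.2 ⟨q, h1⟩, h2⟩

/-- Separation in `M[G]`. -/
theorem ext_sep (h2 : ST_FB2.{u}) (h3 : ST_FB3.{u}) (hM : IsZF M ∅) (hP : P ∈ M)
    (hG : IsGeneric M P G) (k : ℕ) (φ : Fml (k + 1)) (p : Fin k → ZFSet.{u})
    (hp : ∀ i, p i ∈ Ext M G) (a : ZFSet.{u}) (ha : a ∈ Ext M G) :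
    ∃ b ∈ Ext M G, ∀ x, x ∈ b ↔ x ∈ a ∧ Sat (Ext M G) ∅ φ (Fin.cons x p) := by
  choose ρ hρ hpρ using hp
  obtain ⟨τ, hτ, rfl⟩ := ha
  have e : p = fun i => val G (ρ i) := funext hpρ
  set ψ : Fml (k + 1 + 1) := .and (.mem 0 1) (φ.rn (Fin.cons 0 (fun i => i.succ.succ))) with hψ
  have hsat : ∀ x, Sat (Ext M G) ∅ ψ (Fin.cons x (Fin.cons (val G τ) p)) ↔
      x ∈ val G τ ∧ Sat (Ext M G) ∅ φ (Fin.cons x p) := by
    intro x
    rw [hψ]
    simp only [Sat]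
    rw [sat_rn]
    have e1 : (Fin.cons x (Fin.cons (val G τ) p) : Fin (k + 1 + 1) → ZFSet.{u}) ∘
        (Fin.cons 0 (fun i => i.succ.succ) : Fin (k + 1) → Fin (k + 1 + 1)) =
        (Fin.cons x p : Fin (k + 1) → ZFSet.{u}) := by
      funext i
      refine Fin.cases ?_ (fun j => ?_) i
      · rfl
      · rfl
    rw [e1]
    rfl
  refine ⟨val G (cut M P ψ (Fin.cons τ ρ) (Helper22.SC.dom τ)),
    ⟨_, cut_mem h3 hM hP ψ (cons_mem hτ hρ) (dom_mem hM hτ), rfl⟩, fun x => ?_⟩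
  rw [mem_val_cut h2 hM hP hG ψ (cons_mem hτ hρ) (dom_mem hM hτ)]
  rw [val_cons, ← e]
  constructor
  · rintro ⟨s, _, _, h⟩
    exact (hsat x).1 h
  · intro h
    obtain ⟨s, hs, hx⟩ := mem_val_dom h.1
    exact ⟨s, hs, hx, (hsat x).2 h⟩

/-- Any family of values of elements of `B ∈ M` with a definable condition. -/
theorem ext_of_sub (h2 : ST_FB2.{u}) (h3 : ST_FB3.{u}) (hM : IsZF M ∅) (hP : P ∈ M)
    (hG : IsGeneric M P G) (k : ℕ) (φ : Fml (k + 1)) (p : Fin k → ZFSet.{u})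
    (hp : ∀ i, p i ∈ Ext M G) (B : ZFSet.{u}) (hB : B ∈ M) (Q : ZFSet.{u} → Prop)
    (h : ∀ x, Q x → (∃ s ∈ B, x = val G s))
    (h' : ∀ x ∈ Ext M G, (Q x ↔ Sat (Ext M G) ∅ φ (Fin.cons x p))) :
    ∃ b ∈ Ext M G, ∀ x, x ∈ b ↔ Q x := by
  have hb : val G (B.prod {∅}) ∈ Ext M G := ⟨_, prod_mem hM hB (single_mem hM), rfl⟩
  obtain ⟨b, hb, hb'⟩ := ext_sep h2 h3 hM hP hG k φ p hp _ hb
  refine ⟨b, hb, fun x => ?_⟩
  rw [hb', mem_val_full hG]
  constructor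
  · rintro ⟨⟨s, hs, rfl⟩, h4⟩
    exact (h' _ ⟨s, hM.trans _ hB _ hs, rfl⟩).2 h4
  · intro h4
    obtain ⟨s, hs, rfl⟩ := h x h4
    exact ⟨⟨s, hs, rfl⟩, (h' _ ⟨s, hM.trans _ hB _ hs, rfl⟩).1 h4⟩

end

/-- FB4: `M[G]` is a model of ZF. -/
theorem st_FB4 (h1 : ST_FB1.{u}) (h2 : ST_FB2.{u}) (h3 : ST_FB3.{u}) : ST_FB4.{u} := by
  intro M P G hM hP hG
  obtain ⟨hsub, -, htr, -, -⟩ := h1 M ∅ P G hM hP hG
  have hE : (∅ : ZFSet.{u}) ∈ M := hM.empty_mem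
  refine ⟨htr, hsub _ hM.omega, ?_, ?_, ?_, ?_, ?_⟩
  · -- pair
    rintro x ⟨σ, hσ, rfl⟩ y ⟨τ, hτ, rfl⟩
    refine ⟨ZFSet.prod {σ, τ} {∅}, prod_mem hM (hM.pair _ hσ _ hτ) (single_mem hM), ?_⟩
    ext z
    rw [mem_val_full hG, ZFSet.mem_pair]
    simp only [ZFSet.mem_pair]
    constructor
    · rintro (rfl | rfl)
      · exact ⟨σ, Or.inl rfl, rfl⟩
      · exact ⟨τ, Or.inr rfl, rfl⟩
    · rintro ⟨s, rfl | rfl, rfl⟩
      · exact Or.inl rfl
      · exact Or.inr rfl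
  · -- union
    rintro x ⟨τ, hτ, rfl⟩
    have hB : Helper22.SC.dom (⋃₀ (Helper22.SC.dom τ)) ∈ M :=
      dom_mem hM (hM.sUnion _ (dom_mem hM hτ))
    obtain ⟨b, hb, hb'⟩ := ext_of_sub h2 h3 hM hP hG 1 (.ex (.and (.mem 0 2) (.mem 1 0)))
      ![val G τ] (fun i => by fin_cases i; exact ⟨τ, hτ, rfl⟩) _ hB
      (fun z => z ∈ (⋃₀ (val G τ) : ZFSet.{u})) (fun z hz => by
        obtain ⟨y, hy, hzy⟩ := ZFSet.mem_sUnion.1 hz
        obtain ⟨σ, hσ, rfl⟩ := mem_val_dom hy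
        obtain ⟨ρ, q, _, hρ, rfl⟩ := mem_val.1 hzy
        exact ⟨ρ, Helper22.SC.mem_dom.2 ⟨q, ZFSet.mem_sUnion.2 ⟨σ, hσ, hρ⟩⟩, rfl⟩)
      (fun z hz => by
        rw [ZFSet.mem_sUnion]
        constructor
        · rintro ⟨y, hy, hzy⟩
          exact ⟨y, htr _ ⟨τ, hτ, rfl⟩ _ hy, hy, hzy⟩
        · rintro ⟨y, _, hy, hzy⟩
          exact ⟨y, hy, hzy⟩)
    have : (ZFSet.sUnion (val G τ)) = b := by
      ext z
      rw [hb']
    rw [this]
    exact hb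
  · -- power
    rintro x ⟨τ, hτ, rfl⟩
    have hd := dom_mem hM hτ
    have hB : Helper66.SC.Pow M (ZFSet.prod (Helper22.SC.dom τ) P) ∈ M := pow_mem hM (prod_mem hM hd hP)
    obtain ⟨b, hb, hb'⟩ := ext_of_sub h2 h3 hM hP hG 1
      (.neg (.ex (.and (.mem 0 1) (.neg (.mem 0 2)))))
      ![val G τ] (fun i => by fin_cases i; exact ⟨τ, hτ, rfl⟩) _ hB
      (fun z => z ∈ Ext M G ∧ z ⊆ val G τ) (by
        rintro z ⟨⟨ρ, hρ, rfl⟩, hz⟩
        have hv : ∀ i, (![ρ] : Fin 1 → ZFSet.{u}) i ∈ M := fun i => by fin_cases i; exact hρ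
        refine ⟨cut M P (.mem 0 1) ![ρ] (Helper22.SC.dom τ), mem_Pow.2
          ⟨cut_mem h3 hM hP _ hv hd, ?_⟩, ?_⟩
        · intro w hw
          unfold cut at hw
          exact (ZFSet.mem_sep.1 hw).1
        · ext y
          rw [mem_val_cut h2 hM hP hG _ hv hd]
          constructor
          · intro hy
            obtain ⟨s, hs, hy'⟩ := mem_val_dom (hz hy)
            exact ⟨s, hs, hy', hy⟩
          · rintro ⟨s, _, _, h⟩
            exact h)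
      (fun z hz => by
        constructor
        · rintro ⟨_, h⟩ ⟨y, _, hy, hy'⟩
          exact hy' (h hy)
        · intro h
          refine ⟨hz, fun y hy => ?_⟩
          by_contra hy'
          exact h ⟨y, htr _ hz _ hy, hy, hy'⟩)
    exact ⟨b, hb, hb'⟩
  · -- separation
    intro k φ p hp a ha
    exact ext_sep h2 h3 hM hP hG k φ p hp a ha
  · -- replacement
    intro k φ p hp a ha hfun
    have hp' := hp
    choose ρ hρ hpρ using hp
    have e : p = fun i => val G (ρ i) := funext hpρ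
    obtain ⟨τ, hτ, rfl⟩ := id ha
    have hd := dom_mem hM hτ
    -- collection in `M`
    have hR0 : URel CZ (fun N _ (q : (((Fin k → ZFSet.{u}) × ZFSet.{u}) × ZFSet.{u}) × ZFSet.{u}) =>
        Forces N q.1.1.2 φ (Fin.cons (pfst q.1.2) (Fin.cons q.2 q.1.1.1)) (psnd q.1.2)) :=
      urel_forces h3 φ (U.psnd U.id.fst.snd) U.id.fst.fst.snd
        (U.finCons (U.pfst U.id.fst.snd) (U.finCons U.id.snd U.id.fst.fst.fst))
    have hR : URel CZ (fun N _ (q : (((Fin k → ZFSet.{u}) × ZFSet.{u}) × ZFSet.{u}) × ZFSet.{u}) =>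
        Forces N q.1.1.2 φ (Fin.cons (pfst q.1.2) (Fin.cons q.2 q.1.1.1)) (psnd q.1.2) ∨
          ¬ ∃ t ∈ N, Forces N q.1.1.2 φ (Fin.cons (pfst q.1.2) (Fin.cons t q.1.1.1))
            (psnd q.1.2)) := by
      refine hR0.or (URel.not (URel.ex (R := fun N _
        (q : (((Fin k → ZFSet.{u}) × ZFSet.{u}) × ZFSet.{u}) × ZFSet.{u}) t =>
        Forces N q.1.1.2 φ (Fin.cons (pfst q.1.2) (Fin.cons t q.1.1.1)) (psnd q.1.2)) ?_))
      exact urel_forces h3 φ (U.psnd U.id.fst.fst.snd) U.id.fst.fst.fst.snd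
        (U.finCons (U.pfst U.id.fst.fst.snd) (U.finCons U.id.snd U.id.fst.fst.fst.fst))
    obtain ⟨B, hB, hB'⟩ := coll_of_urel (C := CZ) (α := (Fin k → ZFSet.{u}) × ZFSet.{u})
      (R := fun N _ c z t => Forces N c.2 φ (Fin.cons (pfst z) (Fin.cons t c.1)) (psnd z) ∨
          ¬ ∃ t ∈ N, Forces N c.2 φ (Fin.cons (pfst z) (Fin.cons t c.1)) (psnd z))
      hR (N := M) (A := ∅) hM (a := (ρ, P)) (by simp [hρ, hP])
      (prod_mem hM hd hP) (fun z _ => by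
        by_cases h : ∃ t ∈ M, Forces M P φ (Fin.cons (pfst z) (Fin.cons t ρ)) (psnd z)
        · obtain ⟨t, ht, h⟩ := h
          exact ⟨t, ht, Or.inl h⟩
        · exact ⟨∅, hE, Or.inr h⟩)
    refine ext_of_sub h2 h3 hM hP hG (k + 1) (.ex (.and (.mem 0 2)
      (φ.rn (Fin.cons 0 (Fin.cons 1 (fun i => i.succ.succ.succ)))))) (Fin.cons (val G τ) p)
      (cons_mem ha hp') B hB _ ?_ ?_
    · rintro y ⟨⟨t, ht, rfl⟩, x, hx, hsat⟩
      obtain ⟨s, hs, rfl⟩ := mem_val_dom hx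
      have hsM := hM.trans _ hd _ hs
      obtain ⟨q, hq, hq'⟩ := (h2 M ∅ P G hM hP hG (k + 2) φ (Fin.cons s (Fin.cons t ρ))
        (cons_mem hsM (cons_mem ht hρ))).1 (by rw [val_cons, val_cons, ← e]; exact hsat)
      obtain ⟨t', ht', h'⟩ := hB' (pair s q) (pair_mem_prod.2 ⟨hs, hG.sub hq⟩)
      simp only [pfst_pair, psnd_pair] at h'
      have h'' : Forces M P φ (Fin.cons s (Fin.cons t' ρ)) q := by
        rcases h' with h' | h'
        · exact h'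
        · exact absurd ⟨t, ht, hq'⟩ h'
      have ht'M := hM.trans _ hB _ ht'
      have hsat' := (h2 M ∅ P G hM hP hG (k + 2) φ (Fin.cons s (Fin.cons t' ρ))
        (cons_mem hsM (cons_mem ht'M hρ))).2 ⟨q, hq, h''⟩
      rw [val_cons, val_cons, ← e] at hsat'
      refine ⟨t', ht', ?_⟩
      exact (hfun _ hx).unique ⟨⟨t, ht, rfl⟩, hsat⟩ ⟨⟨t', ht'M, rfl⟩, hsat'⟩
    · intro y hy
      have hrn : ∀ x, Sat (Ext M G) ∅ (φ.rn (Fin.cons 0 (Fin.cons 1 (fun i => i.succ.succ.succ))))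
          (Fin.cons x (Fin.cons y (Fin.cons (val G τ) p) : Fin (k + 2) → ZFSet.{u}) :
            Fin (k + 3) → ZFSet.{u}) ↔
          Sat (Ext M G) ∅ φ (Fin.cons x (Fin.cons y p)) := by
        intro x
        rw [sat_rn]
        have e1 : (Fin.cons x (Fin.cons y (Fin.cons (val G τ) p) : Fin (k + 2) → ZFSet.{u}) :
            Fin (k + 3) → ZFSet.{u}) ∘
            (Fin.cons 0 (Fin.cons 1 (fun i => i.succ.succ.succ)) : Fin (k + 2) → Fin (k + 3)) =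
            (Fin.cons x (Fin.cons y p) : Fin (k + 2) → ZFSet.{u}) := by
          funext i
          refine Fin.cases ?_ (fun j => ?_) i
          · rfl
          · refine Fin.cases ?_ (fun j => ?_) j
            · rfl
            · rfl
        rw [e1]
      constructor
      · rintro ⟨_, x, hx, h⟩
        exact ⟨x, htr _ ha _ hx, hx, (hrn x).2 h⟩
      · rintro ⟨x, _, hx, h⟩
        exact ⟨hy, x, hx, (hrn x).1 h⟩

end Pool.Agent.Helper25.SC
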